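import Mathlib
import Pool.Agent.H661R3.VN.Final

/-! Vasconcelos' conjecture on the normal module: the case where
`Ext ^ i (I / I ^ 2, R) = 0` for `1 ≤ i ≤ depth R - 1`, in particular every `R` of depth at most
one. Only definitions of Mathlib are used in the statement. -/

set_option autoImplicit false

namespace Pool.Agent.Results.MP_fa772a_ag.ExtVanishing

open CategoryTheory RingTheory.Sequence

universe u

/-- Let `S` be any Noetherian local ring, `I` a proper ideal of finite projective dimension and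
`R = S / I`. Let `xs` be a maximal `R`-regular sequence (so `depth R = xs.length`), and suppose
that `Ext_R ^ i (I / I ^ 2, R) = 0` for `1 ≤ i ≤ depth R - 1` (an empty condition if
`depth R ≤ 1`). If the normal module `Hom_R (I / I ^ 2, R)` has finite projective dimension over
`R`, then `I` is generated by an `S`-regular sequence. -/
theorem result {S : Type u} [CommRing S] [IsNoetherianRing S] [IsLocalRing S]
    (I : Ideal S) (hI : I ≠ ⊤)
    (hpd : ∃ n : ℕ, HasProjectiveDimensionLT (ModuleCat.of S I) n)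
    (hN : ∃ n : ℕ, HasProjectiveDimensionLT
      (ModuleCat.of (S ⧸ I) (I.Cotangent →ₗ[S ⧸ I] (S ⧸ I))) n)
    (xs : List (S ⧸ I)) (hxs : IsRegular (S ⧸ I) xs)
    (hmax : ∀ y : S ⧸ I, ¬ IsRegular (S ⧸ I) (xs ++ [y]))
    (hext : ∀ i : ℕ, 1 ≤ i → i < xs.length → Subsingleton (Abelian.Ext
      (ModuleCat.of (S ⧸ I) I.Cotangent) (ModuleCat.of (S ⧸ I) (S ⧸ I)) i)) :
    ∃ rs : List S, Ideal.span {r : S | r ∈ rs} = I ∧ IsRegular S rs := by
  have hnt : Nontrivial (S ⧸ I) := Ideal.Quotient.nontrivial_iff.2 hI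
  have hloc : IsLocalRing (S ⧸ I) :=
    IsLocalRing.of_surjective' (Ideal.Quotient.mk _) Ideal.Quotient.mk_surjective
  exact Pool.Agent.H661R3.VN.main_dep I hI hpd hN xs.length
    (Pool.Agent.H661R3.VN.dep_of_regular _ (S ⧸ I) xs rfl hxs hmax) hext

end Pool.Agent.Results.MP_fa772a_ag.ExtVanishing
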